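import Pool.Agent.T6.H4.AP.Fin

/-!
# Almost periodicity and value distribution of motivic `L`-functions on the edge line

`H_j`, `j ∈ ι`, are the cohomology groups `H^{w_j}(M_j)` of arbitrary Chow motives `M_j` over `ℚ`, of
dimension `N_j`.  The Euler product `L(H_j, s)` converges absolutely for `Re s > w_j/2 + 1`.  Nothing is
known about it to the left of the line `Re s = w_j/2 + 1`, and the Euler product does not converge
absolutely on this line.  The theorem is about the values of the functions `L(H_j, s)` on this line,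
jointly for all `j ∈ ι`.

The definitions are in `Pool.Agent.Y149.TL.Defs` (`Motive`, `IsEuler`, `edge`), `Pool.Agent.Y149.CM.Defs`
(`LFun`) and `Pool.Agent.T6.H4.AP.Defs`.
-/

set_option autoImplicit false

namespace Pool.Agent.Results.MP_148101_nt.EdgeValueDistribution

open MeasureTheory Filter Topology Polynomial
open Pool.Agent.Y149.TL (Motive IsEuler edge)
open Pool.Agent.Y149.CM (LFun)
open Pool.Agent.T6.H4.AP

/-- **Almost periodicity and value distribution on the edge line.**  `H_j`, `j ∈ ι`, are the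
cohomology groups of motives over `ℚ`, `w_j` the weight and `N_j` the rank of `H_j` (only the
eigenvalues of Frobenius at almost all primes matter), `B_j` the Euler factors of `L(H_j, s)`, and `τ_j`
real numbers; some of the `H_j` may be equal.  The functions `r ↦ L(H_j, w_j/2 + 1 + i(τ_j + r))` exist
as functions `ℓ_j(r)` of the real variable `r`:
1. For all `r` outside a set of Hausdorff dimension zero, the partial Euler products at
   `s_j = w_j/2 + 1 + i(τ_j + r)` converge to `ℓ_j(r) ≠ 0`, and `L(H_j, s) → ℓ_j(r)` for `s → s_j` in every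
   angle.
2. (Almost periodicity.)  For every `ε > 0` there is an `R` such that every interval of length `R`
   contains an `s` with `∫_A^{A+1} |log (ℓ_j(r + s) / ℓ_j(r))| dr ≤ ε` for all `j` and all real `A`.
3. (Joint distribution.)  There is a probability measure `ν` on `ℂ^ι` such that for every bounded
   continuous function `f` the mean values of `f((ℓ_j(r))_j)` over the windows `[A, A + T]` converge to
   `∫ f dν` for `T → ∞`, uniformly in `A ∈ ℝ`; and `ν` is the limit, for `x → ∞`, of the laws of the random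
   vectors `(∏_{p < x} 1 / B_{j,p}(p^{-w_j/2-1-iτ_j} X_p))_j`, where the `X_p` are independent and uniformly
   distributed on the unit circle.
4. (Extreme values.)  If `N_j ≥ 1`, then
   `ν{|z_j| ≥ λ or |z_j| ≤ 1/λ} ≤ 2 exp(-exp(c λ^{1/N_j}))` for all large `λ`, for some `c > 0`. -/
theorem result (ι : Type) [Fintype ι] (H : ι → Motive) (B : ι → Nat.Primes → ℂ[X])
    (hB : ∀ j, IsEuler (H j).weight (H j).frob (B j)) (τ : ι → ℝ) :
    ∃ (E : Set ℝ) (ℓ : ι → ℝ → ℂ) (ν : ProbabilityMeasure (ι → ℂ)), dimH E = 0 ∧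
      (∀ r, r ∉ E → ∀ j, ℓ j r ≠ 0 ∧
        Tendsto (fun x => partialProduct (B j) x (edge (H j).weight (τ j + r))) atTop
          (𝓝 (ℓ j r)) ∧
        ∀ K : ℝ, Tendsto (LFun (B j)) (𝓝[angle (H j).weight (τ j + r) K]
          (edge (H j).weight (τ j + r))) (𝓝 (ℓ j r))) ∧
      (∀ ε : ℝ, 0 < ε → ∃ R : ℝ, 0 < R ∧ ∀ a : ℝ, ∃ s ∈ Set.Icc a (a + R), ∀ (j : ι) (A : ℝ),
        ∫⁻ r in Set.Ioc A (A + 1), ‖Complex.log (ℓ j (r + s) / ℓ j r)‖ₑ ≤ ENNReal.ofReal ε) ∧
      (∀ f : BoundedContinuousFunction (ι → ℂ) ℝ,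
        Tendsto (fun x : ℕ => ∫ ω, f (fun j => randomProduct (H j).weight (B j) (τ j) x ω) ∂PP)
          atTop (𝓝 (∫ y, f y ∂(ν : Measure (ι → ℂ)))) ∧
        Tendsto (wm fun r => f (fun j => ℓ j r)) windows
          (𝓝 (∫ y, f y ∂(ν : Measure (ι → ℂ))))) ∧
      ∀ j, (H j).rank ≠ 0 → ∃ c : ℝ, 0 < c ∧ ∃ Λ : ℝ, ∀ lam : ℝ, Λ ≤ lam →
        (ν : Measure (ι → ℂ)).real {z | lam ≤ ‖z j‖ ∨ ‖z j‖ ≤ 1 / lam} ≤
          2 * Real.exp (-Real.exp (c * lam ^ (1 / ((H j).rank : ℝ)))) :=
  final ι H B hB τ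

end Pool.Agent.Results.MP_148101_nt.EdgeValueDistribution
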