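import Pool.Agent.T6.H9.HE.Lim
import Pool.Agent.T6.H9.HY.Mean

/-!
# Mean values over hyperelliptic curves with two points at infinity

Let `K` be any number field, `g ≥ 1`, `δ ∈ 𝓞_K` nonzero, and let `C : δ y² = f(x)` run over the
curves of genus `g` given by all monic separable polynomials `f` of even degree `2g + 2` over
`𝓞_K`; these curves have two points at infinity, conjugate over `K(√δ)`. Let `M_1, …, M_r` be
motives over `K`, given by their Frobenius eigenvalues (any complex numbers of size at most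
`N v ^ θ`), and `n_1, …, n_r` integers.

We prove that the mean of `∏ L(s_k, h¹(C) ⊗ M_k) ^ n_k` exists for `Re s_k > 3/2 + θ`, and that it
is the product of `∏ L(s_k, M_k ⊗ χ_δ) ^ (-n_k)`, of the exterior square, symmetric square and
Rankin–Selberg L-functions of the `M_k`, and of a function holomorphic in
`Re s_k > θ + 1/2 + 1/(2g+2)`. In particular it continues across the edge `Re s_k = 3/2 + θ` of
absolute convergence to `Re s_k > 1 + θ`, and as far as the L-functions of the `M_k` and their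
squares allow to `Re s_k > θ + 1/2 + 1/(2g+2)`.
-/

set_option autoImplicit false

namespace Pool.Agent.Results.MP_148101_nt.EvenDegreeMeans

open Filter Topology Polynomial NumberField IsDedekindDomain
open Pool.Agent.T6.H9 Pool.Agent.T6.H9.MV Pool.Agent.T6.H9.HY Pool.Agent.T6.H9.HypL
open Pool.Agent.T6.H9.TP Pool.Agent.T6.H9.HE

/-- The polar part: the product of `∏_k L(s_k, M_k ⊗ χ_δ)^{-n_k}` and of
`∏_k L(2 s_k - 1, Λ² M_k)^{n_k(n_k+1)/2} L(2 s_k - 1, Sym² M_k)^{n_k(n_k-1)/2}` and of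
`∏_{j<k} L(s_j + s_k - 1, M_j ⊗ M_k)^{n_j n_k}`. -/
noncomputable def polar {K : Type} [Field K] [NumberField K] {r : ℕ} {d : Fin r → ℕ} (δ : 𝓞 K)
    (A : ∀ k : Fin r, HeightOneSpectrum (𝓞 K) → Fin (d k) → ℂ)
    (n : Fin r → ℤ) (s : Fin r → ℂ) : ℂ :=
  (∏ k, EvenL.Ltw δ (A k) (s k) ^ (-n k)) *
  ((∏ k, (TensorL.Lext (A k) (2 * s k - 1) ^ (n k * (n k + 1) / 2) *
      TensorL.Lsym (A k) (2 * s k - 1) ^ (n k * (n k - 1) / 2))) *
    ∏ p ∈ (Finset.univ : Finset (Fin r × Fin r)).filter (fun p => p.1 < p.2),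
      TensorL.LRS (A p.1) (A p.2) (s p.1 + s p.2 - 1) ^ (n p.1 * n p.2))

lemma polar_eq {K : Type} [Field K] [NumberField K] {r : ℕ} {d : Fin r → ℕ} (δ : 𝓞 K)
    (A : ∀ k : Fin r, HeightOneSpectrum (𝓞 K) → Fin (d k) → ℂ)
    (n : Fin r → ℤ) (s : Fin r → ℂ) : polar δ A n s = polE δ A n fun k => s k - 1 / 2 := by
  unfold polar polE polT
  have h1 : ∀ k, s k - 1 / 2 + 1 / 2 = s k := fun k => by ring
  have h2 : ∀ k, 2 * (s k - 1 / 2) = 2 * s k - 1 := fun k => by ring
  have h3 : ∀ j k, s j - 1 / 2 + (s k - 1 / 2) = s j + s k - 1 := fun j k => by ring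
  simp only [h1, h2, h3]

/-- **Mean values of products of L-functions `L(s, h¹(C) ⊗ M)` over all curves
`C : δ y² = f(x)`, `f` monic of degree `2g + 2`, over a number field.** -/
theorem result (K : Type) [Field K] [NumberField K] {ι : Type} [Fintype ι]
    (ω : Module.Basis ι ℤ (𝓞 K)) (g : ℕ) (hg : 1 ≤ g) (δ : 𝓞 K) (hδ : δ ≠ 0) (r : ℕ)
    (d : Fin r → ℕ) (A : ∀ k : Fin r, HeightOneSpectrum (𝓞 K) → Fin (d k) → ℂ) (θ : ℝ)
    (hA : ∀ k v i, ‖A k v i‖ ≤ (Ideal.absNorm v.asIdeal : ℝ) ^ θ) (n : Fin r → ℤ) :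
    DifferentiableOn ℂ (polar δ A n) {s | ∀ k, 1 + θ < (s k).re} ∧
    ∃ H : (Fin r → ℂ) → ℂ,
      DifferentiableOn ℂ H {s | ∀ k, θ + 1 / 2 + 1 / (2 * (g : ℝ) + 2) < (s k).re} ∧
      ((∀ k v j, (∑ i, A k v i ^ (j + 1)).im = 0) →
        ∀ s : Fin r → ℂ, (∀ k, θ + 1 / 2 + 1 / (2 * (g : ℝ) + 2) < (s k).re ∧ (s k).im = 0) →
          H s ≠ 0) ∧
      ∀ s : Fin r → ℂ, (∀ k, 3 / 2 + θ < (s k).re) →
        Tendsto (fun B : Fin (2 * g + 2) × ι → ℕ =>
          mean (Fam ω (2 * g + 2) B) fun f => ∏ k, EvenL.Lfun δ f (A k) (s k) ^ n k) atTop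
          (𝓝 (polar δ A n s * H s)) := by
  classical
  have hc : cT (2 * g + 1) θ = θ + 1 / (2 * (g : ℝ) + 2) := by
    unfold cT
    push_cast
    congr 2
    ring
  have hA' : ∀ k v i, ‖A k v i‖ ≤ (qv v : ℝ) ^ θ := hA
  have hsh : ∀ z : ℂ, (z - 1 / 2).re = z.re - 1 / 2 := fun z => by
    simp only [Complex.sub_re]
    norm_num
  have him : ∀ z : ℂ, (z - 1 / 2).im = z.im := fun z => by
    simp only [Complex.sub_im]
    norm_num
  have hd : ∀ S : Set (Fin r → ℂ),
      DifferentiableOn ℂ (fun s : Fin r → ℂ => fun k => s k - 1 / 2) S := by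
    intro S
    fun_prop
  refine ⟨?_, fun s => HfE (2 * (g + 1)) δ A n fun k => s k - 1 / 2, ?_, ?_, ?_⟩
  · have h1 := (differentiableOn_polE δ hA' n).comp (hd {s | ∀ k, 1 + θ < (s k).re})
      (fun s hs k => by
        rw [hsh]
        have := hs k
        linarith)
    exact h1.congr fun s _ => polar_eq δ A n s
  · exact (differentiableOn_HfE hg hδ hA' n).comp
      (hd {s | ∀ k, θ + 1 / 2 + 1 / (2 * (g : ℝ) + 2) < (s k).re}) (fun s hs k => by
        rw [hsh, hc]
        have := hs k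
        linarith)
  · intro hreal s hs
    refine HfE_ne_zero hg hδ hA' hreal n (fun k => ?_) fun k => ?_
    · rw [hsh, hc]
      have := (hs k).1
      linarith
    · rw [him]
      exact (hs k).2
  · intro s hs
    have hs' : (fun k => s k - 1 / 2) ∈ Om r (1 + θ) := fun k => by
      rw [hsh]
      have := hs k
      linarith
    obtain ⟨β, hβ, hb⟩ := glE_bound (K := K) hg (δ := δ) n hA' hs'
    have h1 := tendsto_meanH ω (m := 2 * (g + 1)) (by omega)
      (fun f => ∏ k, EvenL.Lfun δ f (A k) (s k) ^ n k)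
      (fun v => glE (2 * (g + 1)) δ A n (fun k => s k - 1 / 2) v) hβ hb fun a => by
        rw [tprod_glE hg n hA' hs' a]
        have h1 : ∀ k, s k - 1 / 2 + 1 / 2 = s k := fun k => by ring
        simp only [h1]
    rw [limit_eqE hg hδ n hA' hs', ← polar_eq] at h1
    exact h1

end Pool.Agent.Results.MP_148101_nt.EvenDegreeMeans
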