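import Pool.Agent.T6.H4.GT.Fin
import Pool.Agent.T6.H4.GT.Ex

/-!
# Tensor products of an arbitrary Chow motive with the newforms with complex multiplication by `ℚ(i)`

Let `H = H^w(M)` be the cohomology, of dimension `N`, of an arbitrary Chow motive `M` over `ℚ`.  Nothing
is known about `L(H, s)` to the left of the line `Re s = w/2 + 1` at the edge of the half plane of
absolute convergence.  For every `k ≥ 1` let `ψ_k` be a Hecke character of `ℚ(i)` of infinity type `k`,
and let `θ_k` be the newform of weight `k + 1` with complex multiplication by `ℚ(i)` attached to it.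
Among all the `L`-functions `L(H ⊗ θ_k ⊗ χ, s)`, `k ≥ 1` of arbitrary size and `χ` an arbitrary Dirichlet
character, at all points of the edge line at once, there are at most `N²/2` with a zero or a pole (two
characters `χ` which agree at the integers `≡ 1 mod 4` prime to the moduli count as one, since they give
the same `θ_k ⊗ χ` up to Euler factors at finitely many primes).  In particular, for all but `N²/2` of
the weights `k + 1`, none of the functions `L(H ⊗ θ_k ⊗ χ, s)`, `χ` any Dirichlet character, has a zero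
or a pole on its edge line (as far as they have an order there).  The bound does not depend on the
weights, the characters, the moduli and the heights.

The definitions are in `Pool.Agent.T6.H4.GT.Defs` and `Pool.Agent.Y149.TL.Defs`.
-/

set_option autoImplicit false

namespace Pool.Agent.Results.MP_148101_nt.GaussianTwists

open Filter Topology Polynomial
open Pool.Agent.Y149.CM (LFun)
open Pool.Agent.Y149.TL
open Pool.Agent.T6.H4.GT

/-- **Twists by the newforms with complex multiplication by `ℚ(i)`, of all weights.**  `H` is the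
cohomology of a motive over `ℚ`, of weight `w` and rank `N` (only the eigenvalues of Frobenius at almost
all primes matter); `ψ k` is a Hecke character of `ℚ(i)` of infinity type `k`, for every `k`, and `θ_k` is
the newform of weight `k + 1` attached to it.  Let `(k_j, χ_j, τ_j)`, `j < m`, be triples, `k_j ≥ 1`,
`χ_j` a Dirichlet character modulo `q_j`, `τ_j` a height, such that for `i ≠ j` with `k_i = k_j` and
`τ_i = τ_j` there is an integer `n ≡ 1 mod 4` prime to `q_i q_j` with `χ_i(n) ≠ χ_j(n)`.
1. For every `η > 0` and all small `ε > 0` the sum over `j` of the squares of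
`log |L(H ⊗ θ_{k_j} ⊗ χ_j, (w + k_j)/2 + 1 + iτ_j + ε)| / log(1/ε)` is at most `N²/2 + η`.
2. If `r_j` is the order of `L(H ⊗ θ_{k_j} ⊗ χ_j, s)` at the point `(w + k_j)/2 + 1 + iτ_j` of the edge
line, then `2 ∑ r_j² ≤ N²`. -/
theorem result (ψ : ∀ k : ℕ, HeckeChar k) (H : Motive) (m : ℕ) (k : Fin m → ℕ)
    (hk : ∀ j, 1 ≤ k j) (q : Fin m → ℕ) (hq : ∀ j, q j ≠ 0)
    (χ : ∀ j, DirichletCharacter ℂ (q j)) (τ : Fin m → ℝ)
    (hsep : ∀ i j, i ≠ j → k i = k j → τ i = τ j →
      ∃ n : ℕ, n % 4 = 1 ∧ n.Coprime (q i) ∧ n.Coprime (q j) ∧ χ i n ≠ χ j n)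
    (B : Fin m → Nat.Primes → ℂ[X])
    (hB : ∀ j, IsEuler (H.weight + k j) (frobTwist H (ψ (k j)) (χ j)) (B j)) :
    (∀ η : ℝ, 0 < η → ∀ᶠ ε : ℝ in 𝓝[>] 0,
      (∀ j, LFun (B j) (edge (H.weight + k j) (τ j) + ε) ≠ 0) ∧
      ∑ j, size (H.weight + k j) (B j) (τ j) ε ^ 2 ≤ (H.rank : ℝ) ^ 2 / 2 + η) ∧
    (∀ r : Fin m → ℤ, (∀ j, HasOrder (H.weight + k j) (B j) (τ j) (r j)) →
      2 * ∑ j, r j ^ 2 ≤ (H.rank : ℤ) ^ 2) :=
  ⟨fun _ hη => family ψ H m k hk q hq χ τ hsep B hB hη,
    fun r hr => orders ψ H m k hk q hq χ τ hsep B hB r hr⟩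

end Pool.Agent.Results.MP_148101_nt.GaussianTwists
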