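import Pool.Agent.T6.H4.NF.Fam

/-!
# Tensor products of an arbitrary Chow motive with all newforms of weight two

Let `H = H^w(M)` be the cohomology, of dimension `N`, of an arbitrary Chow motive `M` over `ℚ`.  Nothing
is known about `L(H, s)` to the left of the line `Re s = w/2 + 1` at the edge of the half plane of
absolute convergence.  Let `f` run through all newforms of weight two and trivial character, of all
levels, with coefficients in number fields of arbitrary degree; the motives `h¹(A)` of the simple
factors `A` of the Jacobians of the modular curves `X_0(N)` are made of them.  Among all pairs `(f, τ)`,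
`τ` a point of the edge line, the sum of the squares of the orders of the poles of the functions
`L(H ⊗ f, s)` is at most `N²`, and so is the sum of the squares of the orders of the zeros.  So there are
at most `N²` newforms `f` for which `L(H ⊗ f, s)` has a pole anywhere on its edge line, and at most `N²`
for which it has a zero there, whatever the levels and the heights are.

The definitions are in `Pool.Agent.T6.H4.NF.Defs` and `Pool.Agent.Y149.TL.Defs`.  The proof uses the
one-sided orthogonality of the coefficients of two eigenforms at all heights from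
`Pool.Agent.Y722.RS` and `Pool.Agent.Y149.CR` (libraries of earlier team members) and an inequality of
Bessel type for nonnegative combinations.
-/

set_option autoImplicit false

namespace Pool.Agent.Results.MP_148101_nt.WeightTwoNewforms

open Filter Topology Polynomial CongruenceSubgroup
open scoped MatrixGroups
open Pool.Agent.Y149.CM (LFun)
open Pool.Agent.Y149.TL
open Pool.Agent.T6.H4.NF

/-- **Tensor products with the newforms of weight two.**  `H` is the cohomology of a motive over `ℚ`, of
weight `w` and rank `N` (only the eigenvalues of Frobenius at almost all primes matter), and `f_i`,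
`i ∈ ι`, are newforms of weight two and trivial character, any two of them different at some prime
which does not divide their levels.
1. For every finite set `S` of pairs `(i, τ)` and every `η > 0`, for all small `ε > 0`, the numbers
`x(i, τ) = log |L(H ⊗ f_i, (w + 1)/2 + 1 + iτ + ε)| / log(1/ε)`, `(i, τ) ∈ S`, are defined, the sum of the
squares of the positive ones is at most `N² + η`, and the sum of the squares of the negative ones is at
most `N² + η`.
2. If `r(i, τ)` is the order of `L(H ⊗ f_i, s)` at the point `(w + 1)/2 + 1 + iτ` of the edge line, then the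
sum of the squares of the negative ones among the numbers `r(i, τ)` (poles), over any finite set of
pairs, is at most `N²`, and the sum of the squares of the positive ones (zeros) is at most `N²`. -/
theorem result (ι : Type) (Nf : ι → ℕ) [∀ i, NeZero (Nf i)]
    (f : ∀ i, CuspForm (Gamma0 (Nf i) : Subgroup (GL (Fin 2) ℝ)) 2) (hf : ∀ i, IsNewform (f i))
    (hne : ∀ i j, i ≠ j → ∃ p : ℕ, p.Prime ∧ ¬ p ∣ Nf i ∧ ¬ p ∣ Nf j ∧
      coef (f i) p ≠ coef (f j) p)
    (H : Motive) (S : Finset (ι × ℝ)) (B : ι × ℝ → Nat.Primes → ℂ[X])
    (hB : ∀ x ∈ S, IsEuler (H.weight + 1) (frobTens H (f x.1)) (B x)) :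
    (∀ η : ℝ, 0 < η → ∀ᶠ ε : ℝ in 𝓝[>] 0,
      (∀ x ∈ S, LFun (B x) (edge (H.weight + 1) x.2 + ε) ≠ 0) ∧
      ∑ x ∈ S, max (size (H.weight + 1) (B x) x.2 ε) 0 ^ 2 ≤ (H.rank : ℝ) ^ 2 + η ∧
      ∑ x ∈ S, max (-size (H.weight + 1) (B x) x.2 ε) 0 ^ 2 ≤ (H.rank : ℝ) ^ 2 + η) ∧
    (∀ r : ι × ℝ → ℤ, (∀ x ∈ S, HasOrder (H.weight + 1) (B x) x.2 (r x)) →
      ∑ x ∈ S, max (-r x) 0 ^ 2 ≤ (H.rank : ℤ) ^ 2 ∧
      ∑ x ∈ S, max (r x) 0 ^ 2 ≤ (H.rank : ℤ) ^ 2) := by
  refine ⟨fun η hη => ?_, fun r hr => new_order hf hne H S hB hr⟩
  filter_upwards [new_mean hf hne H S hB (s := 1) (Or.inl rfl) hη,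
    new_mean hf hne H S hB (s := -1) (Or.inr rfl) hη] with ε h1 h2
  refine ⟨h1.1, ?_, ?_⟩
  · simpa using h1.2
  · simpa using h2.2

end Pool.Agent.Results.MP_148101_nt.WeightTwoNewforms
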